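import Mathlib
import Pool.Agent.MP_154433_an.p4.All

set_option autoImplicit false
open MeasureTheory ProbabilityTheory Filter Topology

namespace Pool.Agent.Results.MP_154433_an.CommutingErgodic

theorem result :
    ∀ (σ : ℕ → ℝ), (∀ n, 0 ≤ σ n ∧ σ n ≤ 1) → Antitone σ →
  Tendsto (fun n : ℕ => (n : ℝ) * σ n) atTop atTop →
  ∀ (Ω : Type) [MeasurableSpace Ω] (P : Measure Ω) [IsProbabilityMeasure P]
    (E : ℕ → Set Ω), (∀ n, MeasurableSet (E n)) → iIndepSet E P →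
    (∀ n, P (E n) = ENNReal.ofReal (σ n)) →
  ∀ᵐ ω ∂P, ∀ (X : Type) [MeasurableSpace X] (μ : Measure X) [IsProbabilityMeasure μ]
    (ℓ : ℕ) (T : Fin ℓ → X ≃ᵐ X) (f : Fin ℓ → X → ℝ),
    (∀ i, MeasurePreserving (⇑(T i)) μ μ) →
    (∀ i j, Function.Commute ⇑(T i) ⇑(T j)) →
    (∀ i, ⇑(T i) = id ∨ ∃ q : ℕ, 1 ≤ q ∧ ∀ S : Set X, MeasurableSet S →
      T i ⁻¹' S =ᵐ[μ] S → ∀ k, (⇑(T k))^[q] ⁻¹' S =ᵐ[μ] S) →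
    (∀ i j, ⇑(T i) = ⇑(T j) ∨ ∃ q : ℕ, 1 ≤ q ∧ ∀ S : Set X, MeasurableSet S →
      (fun x => T i ((T j).symm x)) ⁻¹' S =ᵐ[μ] S → ∀ k, (⇑(T k))^[q] ⁻¹' S =ᵐ[μ] S) →
    (∀ i, MemLp (f i) ⊤ μ) →
    ∃ g : X → ℝ, MemLp g 2 μ ∧
      Tendsto (fun N : ℕ => eLpNorm (fun x => (N : ℝ)⁻¹ *
          (∑ n ∈ Finset.range N, ∏ i, f i ((⇑(T i))^[Nat.nth (fun k => ω ∈ E k) n] x)) - g x) 2 μ)
        atTop (𝓝 0) ∧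
      Tendsto (fun N : ℕ => eLpNorm (fun x => (N : ℝ)⁻¹ *
          (∑ n ∈ Finset.Icc 1 N, ∏ i, f i ((⇑(T i))^[n] x)) - g x) 2 μ)
        atTop (𝓝 0) :=
  fun σ h0 ha h Ω _ P _ E hE hi hP =>
    (Pool.Agent.MP_154433_an.T4S.mainEC σ h0 ha
      (T3u.gr_one (fun n => (h0 n).1) h) Ω P E hE hi hP).mono
      fun _ hω X _ μ _ ℓ T f hm hT h1 h2 hf => hω X μ ℓ T f hm hT ⟨h1, h2⟩ hf

end Pool.Agent.Results.MP_154433_an.CommutingErgodic
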